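import Mathlib
import Pool.Agent.Helper214_flat.Cor

set_option autoImplicit false

open scoped RealInnerProductSpace
open Real Finset EuclideanGeometry
open Pool.Agent.Helper214_flat

namespace Pool.Agent.Results.MP_07bb12_co.PinchedCriterion

/-- The chain with vertices `p 0, …, p n` is simple: consecutive vertices are distinct,
non-adjacent links are disjoint and adjacent links meet only in their common vertex. -/
def SimpleChain {n : ℕ} (p : Fin (n + 1) → EuclideanSpace ℝ (Fin 3)) : Prop :=
  (∀ i : Fin n, p i.castSucc ≠ p i.succ) ∧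
  (∀ i j : Fin n, i.val + 1 < j.val →
    Disjoint (segment ℝ (p i.castSucc) (p i.succ)) (segment ℝ (p j.castSucc) (p j.succ))) ∧
  (∀ i j : Fin n, j.val = i.val + 1 →
    segment ℝ (p i.castSucc) (p i.succ) ∩ segment ℝ (p j.castSucc) (p j.succ) ⊆ {p i.succ})

/-- The configurations `p` and `q` have the same link lengths and the same joint angles. -/
def SameLinkage {n : ℕ} (p q : Fin (n + 1) → EuclideanSpace ℝ (Fin 3)) : Prop :=
  (∀ i : Fin n, dist (p i.castSucc) (p i.succ) = dist (q i.castSucc) (q i.succ)) ∧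
  (∀ i j : Fin n, j.val = i.val + 1 →
    EuclideanGeometry.angle (p i.castSucc) (p i.succ) (p j.succ) =
      EuclideanGeometry.angle (q i.castSucc) (q i.succ) (q j.succ))

/-- The vertex number `k` of a chain with vertices `0, …, n` (the last one if `n < k`). -/
def vtx {n : ℕ} (P : Fin (n + 1) → EuclideanSpace ℝ (Fin 3)) (k : ℕ) :
    EuclideanSpace ℝ (Fin 3) := P ⟨min k n, by omega⟩

/-- The joint number `k` is the vertex `k + 1`, for `0 ≤ k ≤ n - 2`. Its joint angle. -/
noncomputable def jointAngle {n : ℕ} (P : Fin (n + 1) → EuclideanSpace ℝ (Fin 3)) (k : ℕ) : ℝ :=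
  ∠ (vtx P k) (vtx P (k + 1)) (vtx P (k + 2))

/-- The reduced turn angle at the joint `k`. If `k` is not the first or the last joint, it is `π`
minus the joint angle. At the first joint it is the angle at the vertex `2` of the triangle
spanned by the vertices `0`, `1`, `2`; at the last joint it is the angle at the vertex `n - 2` of
the triangle spanned by the vertices `n - 2`, `n - 1`, `n`. -/
noncomputable def redTurn {n : ℕ} (P : Fin (n + 1) → EuclideanSpace ℝ (Fin 3)) (k : ℕ) : ℝ :=
  if k = 0 then ∠ (vtx P 0) (vtx P 2) (vtx P 1)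
  else if k + 2 = n then ∠ (vtx P n) (vtx P (n - 2)) (vtx P (n - 1))
  else π - jointAngle P k

/-- The joint `i` is pinched: there are joints `a < i < b` such that, with `τ k` the reduced turn
angle at the joint `k`, the numbers `π - τ a + ∑_{a < k < i} τ k` and
`π - τ b + ∑_{i < k < b} τ k` are at most `τ i`, and
`(π - τ a) + (π - τ b) + ∑_{a < k < b} τ k ≤ π`. -/
def PinchedAt {n : ℕ} (P : Fin (n + 1) → EuclideanSpace ℝ (Fin 3)) (i : ℕ) : Prop :=
  ∃ a b : ℕ, a < i ∧ i < b ∧ b < n - 1 ∧
    (π - redTurn P a) + ∑ k ∈ Ioo a i, redTurn P k ≤ redTurn P i ∧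
    (π - redTurn P b) + ∑ k ∈ Ioo i b, redTurn P k ≤ redTurn P i ∧
    (π - redTurn P a) + (π - redTurn P b) + ∑ k ∈ Ioo a b, redTurn P k ≤ π

/-- The inner product of the vector products `e i × e (i + 1)` and `e j × e (j + 1)`, where
`e k` is the link vector from the vertex `k` to the vertex `k + 1`. For planar configurations its
sign tells whether the chain turns in the same sense at the joints `i` and `j`. -/
noncomputable def relSense {n : ℕ} (P : Fin (n + 1) → EuclideanSpace ℝ (Fin 3)) (i j : ℕ) : ℝ :=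
  ⟪vtx P (i + 1) - vtx P i, vtx P (j + 1) - vtx P j⟫ *
    ⟪vtx P (i + 2) - vtx P (i + 1), vtx P (j + 2) - vtx P (j + 1)⟫ -
  ⟪vtx P (i + 1) - vtx P i, vtx P (j + 2) - vtx P (j + 1)⟫ *
    ⟪vtx P (i + 2) - vtx P (i + 1), vtx P (j + 1) - vtx P j⟫

/-- One of six conditions: all joint angles exceed `π / 3`; there are no joints `a < i < b` whose
joint angles satisfy `θ a + θ b ≤ θ i ≤ π - max (θ a) (θ b)`; at most two joint angles are acute;
there are at most five links; there are at most seven links and the two end links are not longer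
than their neighbours; the relative senses of any two pinched joints are the same in `P` and
`Q`. -/
def Criterion {n : ℕ} (P Q : Fin (n + 1) → EuclideanSpace ℝ (Fin 3)) : Prop :=
  (∀ k, k + 1 < n → π / 3 < jointAngle P k) ∨
  (∀ a i b, a < i → i < b → b + 1 < n → jointAngle P a + jointAngle P b ≤ jointAngle P i →
    π < jointAngle P i + max (jointAngle P a) (jointAngle P b)) ∨
  (∃ p q : ℕ, ∀ k, k + 1 < n → k ≠ p → k ≠ q → π / 2 ≤ jointAngle P k) ∨
  n ≤ 5 ∨
  (n ≤ 7 ∧ dist (vtx P 0) (vtx P 1) ≤ dist (vtx P 1) (vtx P 2) ∧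
    dist (vtx P (n - 1)) (vtx P n) ≤ dist (vtx P (n - 2)) (vtx P (n - 1))) ∨
  (∀ i j, i < j → PinchedAt P i → PinchedAt P j → relSense P i j = relSense Q i j)

theorem result (n : ℕ) (P Q : Fin (n + 1) → EuclideanSpace ℝ (Fin 3))
    (hP : SimpleChain P) (hQ : SimpleChain Q)
    (cP : Coplanar ℝ (Set.range P)) (cQ : Coplanar ℝ (Set.range Q))
    (hPQ : SameLinkage P Q) (hc : Criterion P Q) :
    ∃ γ : ℝ → (Fin (n + 1) → EuclideanSpace ℝ (Fin 3)),
      Continuous γ ∧ γ 0 = P ∧ γ 1 = Q ∧
      ∀ t ∈ Set.Icc (0 : ℝ) 1, SimpleChain (γ t) ∧ SameLinkage (γ t) P := by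
  refine motion_of_joined (joined_all (P := P) (Q := Q) hP hQ cP cQ (SameChain.symm hPQ) ?_)
  intro i j hij hi hj
  rcases hc with h | h | ⟨p, q, h⟩ | h | ⟨h, h0, h1⟩ | h
  · exact absurd hi (not_pinched_of_sixty hP h i)
  · exact absurd hi (not_pinched_of_sum hP h i)
  · exact (not_two_pinched_of_acute hP h hij hi hj).elim
  · exact (not_two_pinched_of_five hP h hij hi hj).elim
  · exact (not_two_pinched_of_seven hP h h0 h1 hij hi hj).elim
  · exact h i j hij hi hj

end Pool.Agent.Results.MP_07bb12_co.PinchedCriterion
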